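import Pool.Agent.Lib.MP_daa8b9_co.Merge

set_option autoImplicit false

noncomputable section

namespace Pool.Agent.Lib.MP_daa8b9_co

def force {α : Type} (n : ℕ) (k : ℕ → α) : α := Nat.rec (k 0) (fun m _ => k (Nat.succ m)) n

lemma force_eq {α : Type} (n : ℕ) (k : ℕ → α) : force n k = k n := by
  cases n <;> rfl

def forceI {α : Type} (z : ℤ) (k : ℤ → α) : α :=
  Int.rec (fun n => force n (fun m => k (Int.ofNat m)))
    (fun n => force n (fun m => k (Int.negSucc m))) z

lemma forceI_eq {α : Type} (z : ℤ) (k : ℤ → α) : forceI z k = k z := by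
  cases z <;> simp only [forceI, force_eq]

lemma beq_t {a b : ℕ} (h : a = b) : Nat.beq a b = true := by
  rw [h]; exact Nat.beq_refl b

lemma beq_f {a b : ℕ} (h : ¬ a = b) : Nat.beq a b = false := by
  cases hb : Nat.beq a b
  · rfl
  · exact absurd (Nat.eq_of_beq_eq_true hb) h

def sel {α : Type} (a b : ℕ) (x y : α) : α := Bool.rec y x (Nat.beq a b)

lemma sel_eq {α : Type} (a b : ℕ) (x y : α) : sel a b x y = if a = b then x else y := by
  unfold sel
  by_cases h : a = b
  · rw [beq_t h, if_pos h]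
  · rw [beq_f h, if_neg h]

def get (c i : ℕ) : ℕ := Nat.mod (Nat.shiftRight c (Nat.mul 4 i)) 16

lemma get_eq (c i : ℕ) : get c i = c / 16 ^ i % 16 := by
  show (c >>> (4 * i)) % 16 = _
  rw [Nat.shiftRight_eq_div_pow, pow_mul]
  norm_num

lemma get_lt (c i : ℕ) : get c i < 16 := by
  rw [get_eq]; omega

def build (f : ℕ → ℕ) (n : ℕ) : ℕ :=
  Nat.rec 0 (fun k r => Nat.add r (Nat.shiftLeft (f k) (Nat.mul 4 k))) n

lemma build_succ (f : ℕ → ℕ) (n : ℕ) : build f (n + 1) = build f n + f n * 16 ^ n := by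
  show build f n + (f n) <<< (4 * n) = _
  rw [Nat.shiftLeft_eq, pow_mul]
  norm_num

lemma build_lt (f : ℕ → ℕ) (n : ℕ) (hf : ∀ k, k < n → f k < 16) : build f n < 16 ^ n := by
  induction n with
  | zero => simp [build]
  | succ n ih =>
    rw [build_succ, pow_succ]
    have := hf n (by omega)
    have h2 : f n * 16 ^ n ≤ 15 * 16 ^ n := Nat.mul_le_mul_right _ (by omega)
    have := ih (fun k hk => hf k (by omega))
    omega

lemma get_build (f : ℕ → ℕ) (n : ℕ) (hf : ∀ k, k < n → f k < 16) :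
    ∀ i, i < n → get (build f n) i = f i := by
  induction n with
  | zero => intro i hi; omega
  | succ n ih =>
    intro i hi
    rw [build_succ]
    rcases Nat.lt_succ_iff_lt_or_eq.1 hi with h | h
    · rw [← ih (fun k hk => hf k (by omega)) i h, get_eq, get_eq]
      obtain ⟨j, rfl⟩ := Nat.exists_eq_add_of_lt h
      have : f (i + j + 1) * 16 ^ (i + j + 1) = 16 ^ i * (16 * (f (i + j + 1) * 16 ^ j)) := by ring
      rw [this, Nat.add_mul_div_left _ _ (by positivity), Nat.add_mul_mod_self_left]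
    · subst h
      rw [get_eq, Nat.add_mul_div_right _ _ (by positivity),
        Nat.div_eq_of_lt (build_lt f i (fun k hk => hf k (by omega))), zero_add,
        Nat.mod_eq_of_lt (hf i (by omega))]

def relab (n c x y : ℕ) : ℕ := build (fun k => sel (get c k) y x (get c k)) n

lemma get_relab (n c x y : ℕ) (hx : x < 16) (i : ℕ) (hi : i < n) :
    get (relab n c x y) i = if get c i = y then x else get c i := by
  simp only [relab, sel_eq]
  rw [get_build _ _ _ _ hi]
  intro k _
  split_ifs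
  · exact hx
  · exact get_lt _ _

def find (c l n : ℕ) : ℕ := Nat.rec 0 (fun k r => sel (get c k) l k r) n

lemma find_succ (c l n : ℕ) : find c l (n + 1) = if get c n = l then n else find c l n := by
  show sel _ _ _ _ = _
  rw [sel_eq]
  rfl

lemma find_spec (c l n : ℕ) : ∀ z, z < n → get c z = l →
    get c (find c l n) = l ∧ find c l n < n := by
  induction n with
  | zero => intro z hz; omega
  | succ n ih =>
    intro z hz h2
    rw [find_succ]
    split_ifs with h
    · exact ⟨h, by omega⟩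
    · rcases Nat.lt_succ_iff_lt_or_eq.1 hz with h3 | h3
      · exact ⟨(ih z h3 h2).1, by have := (ih z h3 h2).2; omega⟩
      · subst h3
        exact absurd h2 h

def normC (c tr s n : ℕ) : ℕ :=
  force (build (fun j => get c (get tr j)) s) (fun v =>
    build (fun j => Bool.rec (find v (get v j) s) j (Nat.ble s j)) n)

lemma normC_spec (c tr s n : ℕ) (hn : n ≤ 16) (hs : s ≤ n) :
    (∀ i, s ≤ i → i < n → get (normC c tr s n) i = i) ∧
    (∀ i, i < s → get (normC c tr s n) i < s) ∧
    (∀ i j, i < s → j < s → (get (normC c tr s n) i = get (normC c tr s n) j ↔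
      get c (get tr i) = get c (get tr j))) := by
  unfold normC
  rw [force_eq]
  have hv : ∀ i, i < s → get (build (fun j => get c (get tr j)) s) i = get c (get tr i) :=
    get_build _ _ (fun k _ => get_lt _ _)
  generalize build (fun j => get c (get tr j)) s = v at hv ⊢
  have h1 : ∀ j, (Bool.rec (find v (get v j) s) j (Nat.ble s j) : ℕ) =
      if s ≤ j then j else find v (get v j) s := by
    intro j
    by_cases h : s ≤ j
    · rw [if_pos h, Nat.ble_eq_true_of_le h]
    · rw [if_neg h]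
      cases hb : Nat.ble s j
      · rfl
      · exact absurd (Nat.le_of_ble_eq_true hb) h
  simp only [h1]
  have h2 : ∀ i, i < n → get (build (fun j => if s ≤ j then j else find v (get v j) s) n) i =
      if s ≤ i then i else find v (get v i) s := by
    apply get_build
    intro k hk
    split_ifs with h
    · omega
    · have := (find_spec v (get v k) s k (by omega) rfl).2
      omega
  refine ⟨fun i h3 h4 => by rw [h2 i h4, if_pos h3], fun i hi => ?_, fun i j hi hj => ?_⟩
  · rw [h2 i (by omega), if_neg (by omega)]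
    exact (find_spec v (get v i) s i hi rfl).2
  · rw [h2 i (by omega), h2 j (by omega), if_neg (by omega), if_neg (by omega), ← hv i hi,
      ← hv j hj]
    constructor
    · intro h
      rw [← (find_spec v (get v i) s i hi rfl).1, h, (find_spec v (get v j) s j hj rfl).1]
    · intro h
      rw [h]

abbrev Dt : Type := Fin 21 × Bool

def io (d : Dt) : ℕ := 2 * d.1.val + d.2.toNat

lemma io_lt : ∀ d : Dt, io d < 42 := by decide

lemma io_inj : Function.Injective io := by decide

def lab (fr : List ℕ) (c : ℕ) : Dt → ℕ :=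
  fun d => if io d ∈ fr then get c (fr.idxOf (io d)) else 100 + io d

def posL (fr : List ℕ) (L : List (Dt × Dt)) : List (ℕ × ℕ) :=
  L.map (fun p => (fr.idxOf (io p.1), fr.idxOf (io p.2)))

lemma lab_relab (fr : List ℕ) (c : ℕ) (p : Dt × Dt) (h1 : io p.1 ∈ fr) (h2 : io p.2 ∈ fr) :
    lab fr (relab fr.length c (get c (fr.idxOf (io p.1))) (get c (fr.idxOf (io p.2)))) =
      merge (lab fr c) p := by
  funext d
  unfold merge lab
  rw [if_pos h1, if_pos h2]
  by_cases h : io d ∈ fr
  · rw [if_pos h, if_pos h, get_relab _ _ _ _ (get_lt _ _) _ (List.idxOf_lt_length_of_mem h)]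
  · rw [if_neg h, if_neg h, if_neg]
    have := get_lt c (fr.idxOf (io p.2))
    omega

def run {α : Type} (n : ℕ) (k : ℕ → ℤ → α) (L : List (ℕ × ℕ)) : ℕ → ℤ → α :=
  List.rec (fun c z => k c z) (fun p _ r c z =>
    force (get c p.1) (fun x => force (get c p.2) (fun y =>
      sel x y (r c z) (force (relab n c x y) (fun c' => forceI (Int.neg z) (fun z' => r c' z'))))))
    L

lemma run_cons {α : Type} (n : ℕ) (k : ℕ → ℤ → α) (p : ℕ × ℕ) (L : List (ℕ × ℕ)) (c : ℕ) (z : ℤ) :
    run n k (p :: L) c z = if get c p.1 = get c p.2 then run n k L c z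
      else run n k L (relab n c (get c p.1) (get c p.2)) (-z) := by
  show force (get c p.1) (fun x => force (get c p.2) (fun y =>
      sel x y (run n k L c z) (force (relab n c x y) (fun c' => forceI (Int.neg z)
        (fun z' => run n k L c' z'))))) = _
  simp only [force_eq, forceI_eq, sel_eq]
  rfl

lemma run_spec {α : Type} (fr : List ℕ) (k : ℕ → ℤ → α) (L : List (Dt × Dt))
    (hL : ∀ p ∈ L, io p.1 ∈ fr ∧ io p.2 ∈ fr) : ∀ (c : ℕ) (z : ℤ),
    ∃ c', lab fr c' = mergeL (lab fr c) L ∧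
      run fr.length k (posL fr L) c z = k c' (z * sgn (lab fr c) L) := by
  induction L with
  | nil => intro c z; exact ⟨c, rfl, by simp [posL, run, sgn]⟩
  | cons p L ih =>
    intro c z
    obtain ⟨h1, h2⟩ := hL p (by simp)
    have ih' := ih (fun q hq => hL q (List.mem_cons_of_mem _ hq))
    have e1 : lab fr c p.1 = get c (fr.idxOf (io p.1)) := if_pos h1
    have e2 : lab fr c p.2 = get c (fr.idxOf (io p.2)) := if_pos h2
    have e3 : posL fr (p :: L) = (fr.idxOf (io p.1), fr.idxOf (io p.2)) :: posL fr L := rfl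
    rw [e3, run_cons, mergeL_cons, sgn, e1, e2]
    by_cases h : get c (fr.idxOf (io p.1)) = get c (fr.idxOf (io p.2))
    · have e4 : merge (lab fr c) p = lab fr c := by
        funext d
        unfold merge
        rw [e1, e2]
        split_ifs <;> omega
      obtain ⟨c', h3, h4⟩ := ih' c z
      rw [if_pos h, if_pos h, e4, one_mul]
      exact ⟨c', h3, h4⟩
    · obtain ⟨c', h3, h4⟩ := ih' (relab fr.length c (get c (fr.idxOf (io p.1)))
        (get c (fr.idxOf (io p.2)))) (-z)
      rw [lab_relab fr c p h1 h2] at h3 h4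
      rw [if_neg h, if_neg h]
      exact ⟨c', h3, by rw [h4]; congr 1; ring⟩

def ins (c : ℕ) (z : ℤ) (S : List (ℕ × ℤ)) : List (ℕ × ℤ) :=
  List.rec [(c, z)] (fun t r ih =>
    sel c t.1 (forceI (Int.add z t.2) (fun w => (c, w) :: r)) (t :: ih)) S

def val (g : ℕ → ℤ) (S : List (ℕ × ℤ)) : ℤ := (S.map (fun t => t.2 * g t.1)).sum

lemma val_cons (g : ℕ → ℤ) (t : ℕ × ℤ) (S : List (ℕ × ℤ)) :
    val g (t :: S) = t.2 * g t.1 + val g S := by
  simp [val]

lemma val_ins (g : ℕ → ℤ) (c : ℕ) (z : ℤ) (S : List (ℕ × ℤ)) :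
    val g (ins c z S) = z * g c + val g S := by
  induction S with
  | nil => simp [ins, val]
  | cons t r ih =>
    show val g (sel c t.1 (forceI (Int.add z t.2) (fun w => (c, w) :: r)) (t :: ins c z r)) = _
    rw [sel_eq]
    by_cases h : c = t.1
    · rw [if_pos h, forceI_eq, val_cons, val_cons, ← h]
      show (z + t.2) * g c + _ = _
      ring
    · rw [if_neg h, val_cons, ih, val_cons]
      ring

structure Lev where
  fr : List ℕ
  fr' : List ℕ
  pw : List (ℕ × ℕ)
  pc : List (ℕ × ℕ)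
  n : ℕ
  n' : ℕ
  tr : ℕ
  s : ℕ
  act : List ℕ

def one (L : List (ℕ × ℕ)) (n tr s n' c : ℕ) (z : ℤ) (acc : List (ℕ × ℤ)) : List (ℕ × ℤ) :=
  run n (fun c' z' => force (normC c' tr s n') (fun c'' => ins c'' z' acc)) L c z

def step (q : Lev) (S : List (ℕ × ℤ)) : List (ℕ × ℤ) :=
  List.rec [] (fun t _ ih => one q.pw q.n q.tr q.s q.n' t.1 t.2
    (one q.pc q.n q.tr q.s q.n' t.1 (Int.neg t.2) ih)) S

abbrev Lk : Type := List (Dt × Dt) × List (Dt × Dt)

def InL (A : List ℕ) (L : List (Dt × Dt)) : Prop := ∀ p ∈ L, io p.1 ∈ A ∧ io p.2 ∈ A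

instance (A : List ℕ) (L : List (Dt × Dt)) : Decidable (InL A L) :=
  List.decidableBAll _ _

def LevOK (q : Lev) (e : Lk) (es : List Lk) : Prop :=
  q.pw = posL q.fr e.1 ∧ q.pc = posL q.fr e.2 ∧ InL q.fr e.1 ∧ InL q.fr e.2 ∧
  q.n = q.fr.length ∧ q.n' = q.fr'.length ∧ q.n' ≤ 16 ∧ q.s ≤ q.n' ∧
  (∀ x ∈ q.fr', q.fr'.idxOf x < q.s → x ∈ q.fr ∧ get q.tr (q.fr'.idxOf x) = q.fr.idxOf x) ∧
  (∀ x ∈ q.fr', q.s ≤ q.fr'.idxOf x → x ∉ q.fr) ∧
  (∀ x ∈ q.act, x ∈ q.fr → x ∈ q.fr') ∧
  (∀ r ∈ es, InL q.act r.1 ∧ InL q.act r.2)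

lemma norm_ker (q : Lev) (e : Lk) (es : List Lk) (h : LevOK q e es) (c : ℕ) :
    SameKer (fun d => io d ∈ q.act) (lab q.fr' (normC c q.tr q.s q.n')) (lab q.fr c) := by
  obtain ⟨-, -, -, -, -, h6, h7, h8, h9, h10, h11, -⟩ := h
  obtain ⟨n1, n2, n3⟩ := normC_spec c q.tr q.s q.n' h7 h8
  have key : ∀ a : Dt, io a ∈ q.act →
      (io a ∈ q.fr' ∧ q.fr'.idxOf (io a) < q.s ∧
        lab q.fr' (normC c q.tr q.s q.n') a = get (normC c q.tr q.s q.n') (q.fr'.idxOf (io a)) ∧
        lab q.fr' (normC c q.tr q.s q.n') a < q.s ∧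
        lab q.fr c a = get c (get q.tr (q.fr'.idxOf (io a))) ∧ lab q.fr c a < 16) ∨
      (io a ∈ q.fr' ∧ lab q.fr' (normC c q.tr q.s q.n') a = q.fr'.idxOf (io a) ∧
        q.s ≤ q.fr'.idxOf (io a) ∧ q.fr'.idxOf (io a) < 16 ∧ lab q.fr c a = 100 + io a) ∨
      (io a ∉ q.fr' ∧ lab q.fr' (normC c q.tr q.s q.n') a = 100 + io a ∧
        lab q.fr c a = 100 + io a) := by
    intro a ha
    by_cases h1 : io a ∈ q.fr'
    · have hl := List.idxOf_lt_length_of_mem h1
      have e1 : lab q.fr' (normC c q.tr q.s q.n') a =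
          get (normC c q.tr q.s q.n') (q.fr'.idxOf (io a)) := if_pos h1
      by_cases h2 : q.fr'.idxOf (io a) < q.s
      · obtain ⟨h3, h4⟩ := h9 _ h1 h2
        have e2 : lab q.fr c a = get c (q.fr.idxOf (io a)) := if_pos h3
        refine Or.inl ⟨h1, h2, e1, ?_, by rw [e2, h4], ?_⟩
        · rw [e1]; exact n2 _ h2
        · rw [e2]; exact get_lt _ _
      · refine Or.inr (Or.inl ⟨h1, ?_, by omega, by omega, if_neg (h10 _ h1 (by omega))⟩)
        rw [e1]
        exact n1 _ (by omega) (by omega)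
    · exact Or.inr (Or.inr ⟨h1, if_neg h1, if_neg (fun h2 => h1 (h11 _ ha h2))⟩)
  intro a b ha hb
  rcases key a ha with ⟨a1, a2, a3, a4, a5, a6⟩ | ⟨a1, a2, a3, a4, a5⟩ | ⟨a1, a2, a3⟩ <;>
    rcases key b hb with ⟨b1, b2, b3, b4, b5, b6⟩ | ⟨b1, b2, b3, b4, b5⟩ | ⟨b1, b2, b3⟩
  · rw [a3, b3, a5, b5]
    exact n3 _ _ a2 b2
  · constructor <;> intro h <;> omega
  · constructor <;> intro h <;> omega
  · constructor <;> intro h <;> omega
  · rw [a2, b2, a5, b5]
    constructor
    · intro h
      rw [(List.idxOf_inj a1).1 h]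
    · intro h
      have : io a = io b := by omega
      rw [this]
  · constructor
    · intro h; omega
    · intro h
      have : io a = io b := by omega
      exact absurd (this ▸ a1) b1
  · constructor <;> intro h <;> omega
  · constructor
    · intro h; omega
    · intro h
      have : io b = io a := by omega
      exact absurd (this ▸ b1) a1
  · constructor <;> intro h <;> omega

lemma val_one (q : Lev) (e : Lk) (es : List Lk) (h : LevOK q e es)
    (L : List (Dt × Dt)) (hL : InL q.fr L) (c : ℕ) (z : ℤ) (acc : List (ℕ × ℤ)) :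
    val (fun c => T es (lab q.fr' c)) (one (posL q.fr L) q.n q.tr q.s q.n' c z acc) =
      z * (sgn (lab q.fr c) L * T es (mergeL (lab q.fr c) L)) +
        val (fun c => T es (lab q.fr' c)) acc := by
  unfold one
  obtain ⟨c', h1, h2⟩ := run_spec q.fr
    (fun c' z' => force (normC c' q.tr q.s q.n') (fun c'' => ins c'' z' acc)) L hL c z
  rw [h.2.2.2.2.1, h2, force_eq, val_ins, ← h1]
  have : T es (lab q.fr' (normC c' q.tr q.s q.n')) = T es (lab q.fr c') :=
    T_congr es (norm_ker q e es h c') h.2.2.2.2.2.2.2.2.2.2.2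
  simp only [this]
  ring

lemma val_step (q : Lev) (e : Lk) (es : List Lk) (h : LevOK q e es) (S : List (ℕ × ℤ)) :
    val (fun c => T es (lab q.fr' c)) (step q S) =
      val (fun c => T (e :: es) (lab q.fr c)) S := by
  induction S with
  | nil => rfl
  | cons t S ih =>
    show val _ (one q.pw q.n q.tr q.s q.n' t.1 t.2
      (one q.pc q.n q.tr q.s q.n' t.1 (Int.neg t.2) (step q S))) = _
    rw [h.1, h.2.1, val_one q e es h _ h.2.2.1, val_one q e es h _ h.2.2.2.1, ih, val_cons, T]
    show _ + (-t.2 * _ + _) = _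
    ring

instance (q : Lev) (e : Lk) (es : List Lk) : Decidable (LevOK q e es) :=
  inferInstanceAs (Decidable (
  q.pw = posL q.fr e.1 ∧ q.pc = posL q.fr e.2 ∧ InL q.fr e.1 ∧ InL q.fr e.2 ∧
  q.n = q.fr.length ∧ q.n' = q.fr'.length ∧ q.n' ≤ 16 ∧ q.s ≤ q.n' ∧
  (∀ x ∈ q.fr', q.fr'.idxOf x < q.s → x ∈ q.fr ∧ get q.tr (q.fr'.idxOf x) = q.fr.idxOf x) ∧
  (∀ x ∈ q.fr', q.s ≤ q.fr'.idxOf x → x ∉ q.fr) ∧
  (∀ x ∈ q.act, x ∈ q.fr → x ∈ q.fr') ∧
  (∀ r ∈ es, InL q.act r.1 ∧ InL q.act r.2)))

def dp : List Lev → List (ℕ × ℤ) → ℤ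
  | [], S => (S.map (fun t => t.2)).sum
  | q :: qs, S => dp qs (step q S)

def chainB : List ℕ → List Lev → List Lk → Bool
  | _, [], [] => true
  | fr, q :: qs, e :: es => decide (q.fr = fr) && decide (LevOK q e es) && chainB q.fr' qs es
  | _, _, _ => false

lemma dp_eq (es : List Lk) : ∀ (fr : List ℕ) (qs : List Lev) (S : List (ℕ × ℤ)),
    chainB fr qs es = true → dp qs S = val (fun c => T es (lab fr c)) S := by
  induction es with
  | nil =>
    intro fr qs S h
    cases qs with
    | nil => simp [dp, val, T]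
    | cons q qs => simp [chainB] at h
  | cons e es ih =>
    intro fr qs S h
    cases qs with
    | nil => simp [chainB] at h
    | cons q qs =>
      simp only [chainB, Bool.and_eq_true, decide_eq_true_eq] at h
      obtain ⟨⟨h1, h2⟩, h3⟩ := h
      rw [dp, ih _ qs _ h3, val_step q e es h2, h1]

lemma classes_of_forest {D : Type} [Fintype D] (r : D → D → Prop) (f : D → ℕ) (nxt : D → D)
    (rep : ℕ → D) (K : ℕ) (h1 : ∀ a b, r a b → f a = f b)
    (h2 : ∀ a, nxt a = a ∨ r a (nxt a) ∨ r (nxt a) a) (h3 : ∀ a, nxt^[K] a = rep (f a)) :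
    classes r = (Finset.univ.image f).card := by
  apply classes_eq_card
  have h4 : ∀ k a, Relation.EqvGen r a (nxt^[k] a) := by
    intro k
    induction k with
    | zero => intro a; exact Relation.EqvGen.refl _
    | succ k ih =>
      intro a
      rw [Function.iterate_succ_apply]
      refine Relation.EqvGen.trans _ _ _ ?_ (ih _)
      rcases h2 a with h | h | h
      · rw [h]; exact Relation.EqvGen.refl _
      · exact Relation.EqvGen.rel _ _ h
      · exact Relation.EqvGen.symm _ _ (Relation.EqvGen.rel _ _ h)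
  intro a b
  constructor
  · intro h
    have ha := h4 K a
    have hb := h4 K b
    rw [h3, h] at ha
    rw [h3] at hb
    exact Relation.EqvGen.trans _ _ _ ha (Relation.EqvGen.symm _ _ hb)
  · intro h
    induction h with
    | rel x y h => exact h1 x y h
    | refl x => rfl
    | symm x y _ ih => exact ih.symm
    | trans x y z _ _ ih1 ih2 => exact ih1.trans ih2

end Pool.Agent.Lib.MP_daa8b9_co
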