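import Mathlib

set_option autoImplicit false

namespace Pool.Agent.Lib.MP_daa8b9_co

/- A graph embedded in an oriented surface is given by its edge set E, its half-edges E × Bool
and the rotation σ sending each half-edge to the next one around its vertex. -/

variable {E : Type}

/-- The other half of the same edge. -/
def opp (d : E × Bool) : E × Bool := (d.1, !d.2)

/-- The number of classes of the equivalence relation generated by r. -/
noncomputable def classes {D : Type} (r : D → D → Prop) : ℕ := Nat.card (Quot r)

/-- Every vertex (cycle of σ) has exactly three half-edges. -/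
def Cubic (σ : Equiv.Perm (E × Bool)) : Prop := ∀ d, σ d ≠ d ∧ σ (σ (σ d)) = d

/-- The graph is connected. -/
def Connected (σ : Equiv.Perm (E × Bool)) : Prop :=
  classes (fun a b => b = σ a ∨ b = opp a) = 1

/-- Euler's formula for the sphere: vertices plus faces equals edges plus two. -/
def Plane [Fintype E] (σ : Equiv.Perm (E × Bool)) : Prop :=
  classes (fun a b => b = σ a) + classes (fun a b => σ b = opp a) = Fintype.card E + 2

/-- The number of maps E → Fin 3 giving distinct colours to two edges with a common endpoint. -/
noncomputable def colourings (σ : Equiv.Perm (E × Bool)) : ℕ :=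
  Nat.card {c : E → Fin 3 // ∀ a b : E × Bool, σ.SameCycle a b → a.1 ≠ b.1 → c a.1 ≠ c b.1}

/-- The medial edge named d is the corner between d and σ d; it joins the medial vertices d.1 and
(σ d).1. In the state s (true means crossing) two medial edges are consecutive on a curve if they
are paired at a medial vertex: white pairs, then the two crossing pairs. -/
def paired (σ : Equiv.Perm (E × Bool)) (s : E → Bool) (a b : E × Bool) : Prop :=
  (s a.1 = false ∧ σ b = opp a) ∨ (s a.1 = true ∧ b = opp a) ∨
    (s (σ a).1 = true ∧ σ b = opp (σ a))

/-- The Penrose polynomial evaluated at x. -/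
noncomputable def penrose [Fintype E] [DecidableEq E] (σ : Equiv.Perm (E × Bool)) (x : ℤ) : ℤ :=
  ∑ s : E → Bool, (-1) ^ (Finset.univ.filter (fun e => s e = true)).card * x ^ classes (paired σ s)

end Pool.Agent.Lib.MP_daa8b9_co
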