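import Pool.Agent.Lib.MP_daa8b9_co.Calc

set_option autoImplicit false

namespace Pool.Agent.Lib.MP_daa8b9_co

def un (n : ℕ) : Dt := (Fin.ofNat 21 (n / 2), decide (n % 2 = 1))

def sigL : List ℕ := [20, 3, 13, 4, 1, 9, 11, 2, 6, 16, 22, 8, 14, 7, 19, 0, 5, 38, 26, 12, 15, 24, 29, 18, 34, 17, 23, 33, 30, 10, 37, 27, 35, 31, 21, 40, 41, 28, 25, 36, 32, 39]

def invL : List ℕ := [15, 4, 7, 1, 3, 16, 8, 13, 11, 5, 29, 6, 19, 2, 12, 20, 9, 25, 23, 14, 0, 34, 10, 26, 21, 38, 18, 31, 37, 22, 28, 33, 40, 27, 24, 32, 39, 30, 17, 41, 35, 36]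

def sf (d : Dt) : Dt := un (sigL.getD (io d) 0)

def si (d : Dt) : Dt := un (invL.getD (io d) 0)

lemma si_sf : ∀ d, si (sf d) = d := by decide +kernel

lemma sf_si : ∀ d, sf (si d) = d := by decide +kernel

def sig : Equiv.Perm Dt := ⟨sf, si, si_sf, sf_si⟩

lemma sig_apply (d : Dt) : sig d = sf d := rfl

lemma sf_eq_iff (a b : Dt) : sf a = b ↔ a = si b := by
  constructor
  · intro h; rw [← h, si_sf]
  · intro h; rw [h, sf_si]

def Lw (e : Fin 21) : List (Dt × Dt) :=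
  [((e, false), si (e, true)), ((e, true), si (e, false))]

def Lc (e : Fin 21) : List (Dt × Dt) :=
  [((e, false), (e, true)), (si (e, false), si (e, true))]

noncomputable def data : List Lev :=
  [⟨[0, 1, 4, 15], [0, 1, 4, 15, 2, 3, 7], [(0, 2), (1, 3)], [(0, 1), (3, 2)], 4, 7, 12816, 4,
    [0, 1, 2, 3, 4, 5, 6, 7, 8, 9, 10, 11, 12, 13, 14, 15, 16, 17, 18, 19, 20, 21, 22, 23, 24, 25, 26, 27, 28, 29, 30, 31, 32, 33, 34, 35, 36, 37, 38, 39, 40, 41]⟩,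
  ⟨[0, 1, 4, 15, 2, 3, 7], [0, 4, 15, 2, 3, 7, 5, 16], [(4, 1), (5, 6)], [(4, 5), (6, 1)], 7, 8, 6636320, 6,
    [0, 2, 3, 4, 5, 6, 7, 8, 9, 10, 11, 12, 13, 14, 15, 16, 17, 18, 19, 20, 21, 22, 23, 24, 25, 26, 27, 28, 29, 30, 31, 32, 33, 34, 35, 36, 37, 38, 39, 40, 41]⟩,
  ⟨[0, 4, 15, 2, 3, 7, 5, 16], [0, 15, 2, 7, 5, 16, 6, 8, 13], [(1, 7), (6, 4)], [(1, 6), (4, 7)], 8, 9, 7754528, 6,
    [0, 2, 5, 6, 7, 8, 9, 10, 11, 12, 13, 14, 15, 16, 17, 18, 19, 20, 21, 22, 23, 24, 25, 26, 27, 28, 29, 30, 31, 32, 33, 34, 35, 36, 37, 38, 39, 40, 41]⟩,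
  ⟨[0, 15, 2, 7, 5, 16, 6, 8, 13], [0, 15, 2, 5, 16, 6, 8, 13, 9, 11], [(6, 8), (3, 7)], [(6, 3), (7, 8)], 9, 10, 2271560208, 8,
    [0, 2, 5, 6, 8, 9, 10, 11, 12, 13, 14, 15, 16, 17, 18, 19, 20, 21, 22, 23, 24, 25, 26, 27, 28, 29, 30, 31, 32, 33, 34, 35, 36, 37, 38, 39, 40, 41]⟩,
  ⟨[0, 15, 2, 5, 16, 6, 8, 13, 9, 11], [0, 15, 2, 16, 6, 13, 9, 11, 10, 29], [(6, 3), (8, 9)], [(6, 8), (9, 3)], 10, 10, 2557821456, 8,
    [0, 2, 6, 9, 10, 11, 12, 13, 14, 15, 16, 17, 18, 19, 20, 21, 22, 23, 24, 25, 26, 27, 28, 29, 30, 31, 32, 33, 34, 35, 36, 37, 38, 39, 40, 41]⟩,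
  ⟨[0, 15, 2, 16, 6, 13, 9, 11, 10, 29], [0, 15, 2, 16, 13, 9, 10, 29, 12, 19], [(8, 4), (7, 9)], [(8, 7), (9, 4)], 10, 10, 2556768784, 8,
    [0, 2, 9, 10, 12, 13, 14, 15, 16, 17, 18, 19, 20, 21, 22, 23, 24, 25, 26, 27, 28, 29, 30, 31, 32, 33, 34, 35, 36, 37, 38, 39, 40, 41]⟩,
  ⟨[0, 15, 2, 16, 13, 9, 10, 29, 12, 19], [0, 15, 16, 9, 10, 29, 12, 19, 14, 20], [(8, 2), (4, 9)], [(8, 4), (9, 2)], 10, 10, 2557891344, 8,
    [0, 9, 10, 12, 14, 15, 16, 17, 18, 19, 20, 21, 22, 23, 24, 25, 26, 27, 28, 29, 30, 31, 32, 33, 34, 35, 36, 37, 38, 39, 40, 41]⟩,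
  ⟨[0, 15, 16, 9, 10, 29, 12, 19, 14, 20], [0, 16, 9, 10, 29, 19, 14, 20, 17, 25], [(8, 9), (1, 6)], [(8, 1), (6, 9)], 10, 10, 2557821728, 8,
    [0, 9, 10, 14, 16, 17, 18, 19, 20, 21, 22, 23, 24, 25, 26, 27, 28, 29, 30, 31, 32, 33, 34, 35, 36, 37, 38, 39, 40, 41]⟩,
  ⟨[0, 16, 9, 10, 29, 19, 14, 20, 17, 25], [0, 10, 29, 19, 14, 20, 17, 25, 18, 23], [(1, 9), (8, 2)], [(1, 8), (2, 9)], 10, 10, 2557891632, 8,
    [0, 10, 14, 17, 18, 19, 20, 21, 22, 23, 24, 25, 26, 27, 28, 29, 30, 31, 32, 33, 34, 35, 36, 37, 38, 39, 40, 41]⟩,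
  ⟨[0, 10, 29, 19, 14, 20, 17, 25, 18, 23], [0, 10, 29, 20, 17, 25, 18, 23, 21, 34], [(8, 4), (3, 9)], [(8, 3), (9, 4)], 10, 10, 2557891088, 8,
    [0, 10, 17, 18, 20, 21, 22, 23, 24, 25, 26, 27, 28, 29, 30, 31, 32, 33, 34, 35, 36, 37, 38, 39, 40, 41]⟩,
  ⟨[0, 10, 29, 20, 17, 25, 18, 23, 21, 34], [10, 29, 17, 25, 18, 23, 21, 34, 22, 26], [(3, 9), (8, 0)], [(3, 8), (0, 9)], 10, 10, 2557891617, 8,
    [10, 17, 18, 21, 22, 23, 24, 25, 26, 27, 28, 29, 30, 31, 32, 33, 34, 35, 36, 37, 38, 39, 40, 41]⟩,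
  ⟨[10, 29, 17, 25, 18, 23, 21, 34, 22, 26], [29, 17, 25, 18, 21, 34, 22, 26, 24, 38], [(8, 9), (5, 0)], [(8, 5), (0, 9)], 10, 10, 2557887265, 8,
    [17, 18, 21, 22, 24, 25, 26, 27, 28, 29, 30, 31, 32, 33, 34, 35, 36, 37, 38, 39, 40, 41]⟩,
  ⟨[29, 17, 25, 18, 21, 34, 22, 26, 24, 38], [29, 17, 18, 34, 22, 26, 24, 38, 27, 31], [(8, 9), (2, 4)], [(8, 2), (4, 9)], 10, 10, 2557891344, 8,
    [17, 18, 22, 24, 26, 27, 28, 29, 30, 31, 32, 33, 34, 35, 36, 37, 38, 39, 40, 41]⟩,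
  ⟨[29, 17, 18, 34, 22, 26, 24, 38, 27, 31], [29, 17, 34, 22, 24, 38, 27, 31, 28, 37], [(5, 9), (8, 2)], [(5, 8), (2, 9)], 10, 10, 2557887248, 8,
    [17, 22, 24, 27, 28, 29, 30, 31, 32, 33, 34, 35, 36, 37, 38, 39, 40, 41]⟩,
  ⟨[29, 17, 34, 22, 24, 38, 27, 31, 28, 37], [17, 34, 24, 38, 27, 31, 28, 37, 30, 33], [(8, 3), (0, 9)], [(8, 0), (9, 3)], 10, 10, 2557891617, 8,
    [17, 24, 27, 28, 30, 31, 32, 33, 34, 35, 36, 37, 38, 39, 40, 41]⟩,
  ⟨[17, 34, 24, 38, 27, 31, 28, 37, 30, 33], [17, 34, 24, 38, 27, 37, 30, 33, 32, 40], [(8, 9), (5, 6)], [(8, 5), (6, 9)], 10, 10, 2557751824, 8,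
    [17, 24, 27, 30, 32, 33, 34, 35, 36, 37, 38, 39, 40, 41]⟩,
  ⟨[17, 34, 24, 38, 27, 37, 30, 33, 32, 40], [17, 34, 24, 38, 37, 30, 32, 40, 35], [(8, 4), (7, 9)], [(8, 7), (9, 4)], 10, 9, 2556768784, 8,
    [17, 24, 30, 32, 34, 35, 36, 37, 38, 39, 40, 41]⟩,
  ⟨[17, 34, 24, 38, 37, 30, 32, 40, 35], [17, 38, 37, 30, 40, 35, 36, 39], [(1, 6), (8, 2)], [(1, 8), (2, 6)], 9, 8, 8868912, 6,
    [17, 30, 35, 36, 37, 38, 39, 40, 41]⟩,
  ⟨[17, 38, 37, 30, 40, 35, 36, 39], [17, 38, 40, 35, 36, 39, 41], [(6, 3), (2, 7)], [(6, 2), (7, 3)], 8, 7, 7754768, 6,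
    [17, 35, 36, 38, 39, 40, 41]⟩,
  ⟨[17, 38, 40, 35, 36, 39, 41], [40, 35, 36, 41], [(1, 6), (5, 0)], [(1, 5), (0, 6)], 7, 4, 25650, 4,
    [35, 36, 40, 41]⟩,
  ⟨[40, 35, 36, 41], [], [(0, 2), (3, 1)], [(0, 3), (1, 2)], 4, 0, 0, 0,
    []⟩]

lemma chain_data : chainB [0, 1, 4, 15] data (List.ofFn (fun i => (Lw i, Lc i))) = true := by
  decide +kernel

lemma dp_data : dp data [(12816, 1)] = -78966 := by
  decide +kernel

noncomputable def l0 : Dt → ℕ := lab [0, 1, 4, 15] 12816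

lemma l0_inj : Function.Injective l0 := by
  unfold Function.Injective
  decide +kernel

lemma T_val : T (List.ofFn (fun i => (Lw i, Lc i))) l0 = -78966 := by
  have h1 : ∀ (g : ℕ → ℤ) (c : ℕ), val g [(c, 1)] = g c := by
    intro g c
    simp [val]
  exact ((dp_data.symm.trans (dp_eq _ _ _ _ chain_data)).trans (h1 _ _)).symm

lemma links_of_paired (s : Fin 21 → Bool) (a b : Dt) (h : paired sig s a b) :
    (a, b) ∈ (List.ofFn (fun i => if s i = true then Lc i else Lw i)).flatten ∨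
    (b, a) ∈ (List.ofFn (fun i => if s i = true then Lc i else Lw i)).flatten := by
  have key : ∀ (e : Fin 21) (p : Dt × Dt), p ∈ (if s e = true then Lc e else Lw e) →
      p ∈ (List.ofFn (fun i => if s i = true then Lc i else Lw i)).flatten := by
    intro e p hp
    exact List.mem_flatten.2 ⟨_, List.mem_ofFn.2 ⟨e, rfl⟩, hp⟩
  generalize (List.ofFn (fun i => if s i = true then Lc i else Lw i)).flatten = LL at key ⊢
  simp only [paired, sig_apply] at h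
  rcases h with ⟨h1, h2⟩ | ⟨h1, h2⟩ | ⟨h1, h2⟩
  · rw [sf_eq_iff] at h2
    obtain ⟨e, x⟩ := a
    subst h2
    refine Or.inl (key e _ ?_)
    have h1' : s e = false := h1
    cases x <;> simp [Lw, opp, h1']
  · obtain ⟨e, x⟩ := a
    subst h2
    have h1' : s e = true := h1
    cases x
    · exact Or.inl (key e _ (by simp [Lc, opp, h1']))
    · exact Or.inr (key e _ (by simp [Lc, opp, h1']))
  · rw [sf_eq_iff] at h2
    subst h2
    have h3 : a = si (sf a) := (si_sf a).symm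
    generalize sf a = d at h1 h3 ⊢
    subst h3
    obtain ⟨e, x⟩ := d
    have h1' : s e = true := h1
    cases x
    · exact Or.inl (key e _ (by simp [Lc, opp, h1']))
    · exact Or.inr (key e _ (by simp [Lc, opp, h1']))

lemma paired_of_links (s : Fin 21 → Bool) (a b : Dt)
    (h : (a, b) ∈ (List.ofFn (fun i => if s i = true then Lc i else Lw i)).flatten) :
    paired sig s a b := by
  simp only [List.mem_flatten, List.mem_ofFn] at h
  simp only [paired, sig_apply]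
  obtain ⟨L, ⟨e, rfl⟩, h⟩ := h
  by_cases hs : s e = true
  · rw [if_pos hs] at h
    simp only [Lc, List.mem_cons, Prod.mk.injEq, List.not_mem_nil, or_false] at h
    rcases h with ⟨rfl, rfl⟩ | ⟨rfl, rfl⟩
    · exact Or.inr (Or.inl ⟨hs, rfl⟩)
    · exact Or.inr (Or.inr ⟨by rw [sf_si]; exact hs, by rw [sf_si, sf_si]; rfl⟩)
  · rw [if_neg hs] at h
    have hs' : s e = false := Bool.eq_false_iff.mpr hs
    simp only [Lw, List.mem_cons, Prod.mk.injEq, List.not_mem_nil, or_false] at h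
    rcases h with ⟨rfl, rfl⟩ | ⟨rfl, rfl⟩
    · exact Or.inl ⟨hs', by rw [sf_si]; rfl⟩
    · exact Or.inl ⟨hs', by rw [sf_si]; rfl⟩

lemma card_l0 : (Finset.univ.image l0).card = 42 := by
  rw [Finset.card_image_of_injective _ l0_inj]
  simp

theorem penrose_val : penrose sig (-1) = -78966 := by
  rw [← T_val, ← sum_states]
  unfold penrose
  refine Finset.sum_congr rfl (fun s _ => ?_)
  rw [classes_eq_mergeL _ l0 l0_inj _ (links_of_paired s) (paired_of_links s), pow_card_mergeL,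
    card_l0, Finset.prod_ite, Finset.prod_const, Finset.prod_const_one]
  norm_num

def tab (l : List ℕ) (d : Dt) : ℕ := l.getD (io d) 0

lemma cubic_sig : Cubic sig := by
  unfold Cubic
  simp only [sig_apply]
  decide +kernel

lemma connected_sig : Connected sig := by
  unfold Connected
  rw [classes_of_forest _ (fun _ => 0) (fun d => un (tab [0, 0, 3, 1, 1, 4, 7, 2, 9, 5, 22, 6, 14, 12, 15, 0, 5, 25, 19, 14, 0, 20, 23, 18, 21, 24, 18, 26, 29, 22, 31, 33, 35, 32, 21, 34, 39, 36, 25, 38, 35, 40] d)) (fun _ => un 0) 8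
    (fun _ _ _ => rfl)]
  · decide +kernel
  · simp only [sig_apply]
    decide +kernel
  · decide +kernel

lemma vertices_sig : classes (fun a b => b = sig a) = 14 := by
  rw [classes_of_forest _ (tab [0, 1, 2, 1, 1, 3, 4, 2, 4, 3, 5, 4, 6, 2, 6, 0, 3, 7, 8, 6, 0, 9, 5, 8, 9, 7, 8, 10, 11, 5, 11, 10, 12, 10, 9, 12, 13, 11, 7, 13, 12, 13]) (fun d => un (tab [0, 1, 2, 1, 1, 5, 6, 2, 6, 5, 10, 6, 12, 2, 12, 0, 5, 17, 18, 12, 0, 21, 10, 18, 21, 17, 18, 27, 28, 10, 28, 27, 32, 27, 21, 32, 36, 28, 17, 36, 32, 36] d))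
    (fun n => un (([0, 1, 2, 5, 6, 10, 12, 17, 18, 21, 27, 28, 32, 36] : List ℕ).getD n 0)) 1]
  · decide +kernel
  · rintro a b rfl
    revert a
    simp only [sig_apply]
    decide +kernel
  · simp only [sig_apply]
    decide +kernel
  · decide +kernel

lemma faces_sig : classes (fun a b => sig b = opp a) = 9 := by
  rw [classes_of_forest _ (tab [0, 1, 1, 2, 0, 2, 3, 2, 2, 4, 3, 4, 1, 3, 5, 1, 0, 4, 5, 3, 5, 0, 6, 3, 7, 0, 6, 5, 6, 4, 8, 6, 5, 8, 5, 7, 8, 4, 7, 4, 8, 7]) (fun d => un (tab [0, 1, 1, 3, 0, 3, 6, 3, 7, 9, 6, 9, 15, 6, 14, 1, 4, 9, 14, 13, 14, 0, 22, 10, 24, 21, 22, 18, 22, 11, 30, 26, 34, 30, 20, 24, 30, 29, 24, 17, 33, 38] d))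
    (fun n => un (([0, 1, 3, 6, 9, 14, 22, 24, 30] : List ℕ).getD n 0)) 3]
  · decide +kernel
  · intro a b h
    rw [sig_apply, sf_eq_iff] at h
    subst h
    revert a
    decide +kernel
  · simp only [sig_apply]
    decide +kernel
  · decide +kernel

lemma plane_sig : Plane sig := by
  unfold Plane
  rw [vertices_sig, faces_sig]
  simp

lemma sig_cube : sig ^ 3 = 1 := by
  ext1 d
  exact (cubic_sig d).2

lemma sameCycle_iff (a b : Dt) :
    sig.SameCycle a b ↔ (b = a ∨ b = sf a ∨ b = sf (sf a)) := by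
  constructor
  · rintro ⟨i, rfl⟩
    have h3 : sig ^ (3 : ℤ) = 1 := by exact_mod_cast sig_cube
    have hi : sig ^ i = sig ^ (i % 3) := by
      conv_lhs => rw [← Int.mul_ediv_add_emod i 3, zpow_add, zpow_mul, h3, one_zpow, one_mul]
    rw [hi]
    have : i % 3 = 0 ∨ i % 3 = 1 ∨ i % 3 = 2 := by omega
    rcases this with h | h | h <;> rw [h]
    · exact Or.inl rfl
    · exact Or.inr (Or.inl rfl)
    · exact Or.inr (Or.inr rfl)
  · rintro (rfl | rfl | rfl)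
    · exact Equiv.Perm.SameCycle.refl _ _
    · exact ⟨1, rfl⟩
    · exact ⟨2, rfl⟩

lemma loopless_sig (e : Fin 21) : ¬ sig.SameCycle (e, false) (e, true) := by
  rw [sameCycle_iff]
  revert e
  decide +kernel

def conf : List (ℕ × ℕ) := [(0, 1), (0, 2), (0, 7), (0, 10), (1, 2), (1, 3), (1, 6), (2, 4), (2, 8), (3, 4), (3, 5), (3, 6), (4, 5), (4, 8), (5, 11), (5, 14), (6, 7), (6, 9), (7, 9), (7, 10), (8, 12), (8, 19), (9, 11), (9, 13), (10, 12), (10, 17), (11, 13), (11, 14), (12, 17), (12, 19), (13, 15), (13, 16), (14, 15), (14, 18), (15, 16), (15, 18), (16, 17), (16, 20), (17, 20), (18, 19), (18, 20), (19, 20)]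

def ok (l : List ℕ) : Bool :=
  conf.all (fun p => decide (p.2 < l.length → l.getD p.1 0 ≠ l.getD p.2 0))

lemma conf_lt : ∀ p ∈ conf, p.1 < p.2 ∧ p.2 < 21 := by decide

lemma ok_prefix (l m : List ℕ) (h : ok (l ++ m) = true) : ok l = true := by
  simp only [ok, List.all_eq_true, decide_eq_true_eq] at h ⊢
  intro p hp hlt
  have h1 := h p hp (by rw [List.length_append]; omega)
  have h2 := (conf_lt p hp).1
  rwa [List.getD_append _ _ _ _ (by omega), List.getD_append _ _ _ _ hlt] at h1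

def prevL : List (List ℕ) := [[], [0], [0, 1], [1], [2, 3], [3, 4], [1, 3], [0, 6], [2, 4], [6, 7], [0, 7], [5, 9], [8, 10], [9, 11], [5, 11], [13, 14], [13, 15], [10, 12, 16], [14, 15], [8, 12, 18], [16, 17, 18, 19]]

def okNew (k : ℕ) (l : List ℕ) (a : ℕ) : Bool :=
  (prevL.getD k []).all (fun i => !(Nat.beq (l.getD i 0) a))

lemma prev_spec : ∀ k, k < 21 → ∀ i, i < 21 → (i ∈ prevL.getD k [] ↔ (i, k) ∈ conf) := by
  decide +kernel

lemma prev_lt : ∀ k, k < 21 → ∀ i ∈ prevL.getD k [], i < k := by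
  decide +kernel

lemma ok_snoc (l : List ℕ) (a : ℕ) (hl : l.length < 21) (h : ok l = true) :
    ok (l ++ [a]) = okNew l.length l a := by
  rw [Bool.eq_iff_iff]
  simp only [ok, okNew, List.all_eq_true, decide_eq_true_eq, Bool.not_eq_true',
    List.length_append, List.length_singleton] at h ⊢
  have hlast : (l ++ [a]).getD l.length 0 = a := by
    rw [List.getD_append_right _ _ _ _ (le_refl _)]
    simp
  constructor
  · intro h1 i hi
    have h2 := prev_lt _ hl i hi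
    have h3 := h1 (i, l.length) ((prev_spec _ hl i (by omega)).1 hi) (by simp)
    rw [hlast, List.getD_append _ _ _ _ h2] at h3
    exact beq_f h3
  · intro h1 p hp hlt
    obtain ⟨h2, h3⟩ := conf_lt p hp
    by_cases h4 : p.2 < l.length
    · rw [List.getD_append _ _ _ _ (by omega), List.getD_append _ _ _ _ h4]
      exact h p hp h4
    · have h5 : p.2 = l.length := by omega
      have h6 := h1 p.1 ((prev_spec _ hl p.1 (by omega)).2 (by rw [← h5]; exact hp))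
      rw [h5, hlast, List.getD_append _ _ _ _ (by omega)]
      intro h7
      rw [beq_t h7] at h6
      exact absurd h6 (by simp)

def cnt : ℕ → ℕ → List ℕ → ℕ
  | 0, _, _ => 1
  | n + 1, k, l => cond (okNew k l 0) (cnt n (k + 1) (l ++ [0])) 0 +
      cond (okNew k l 1) (cnt n (k + 1) (l ++ [1])) 0 +
      cond (okNew k l 2) (cnt n (k + 1) (l ++ [2])) 0

lemma sum_ok (n : ℕ) : ∀ l : List ℕ, l.length + n = 21 → ok l = true →
    ∑ c : Fin n → Fin 3, (if ok (l ++ List.ofFn (fun i => (c i).val)) = true then 1 else 0) =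
      cnt n l.length l := by
  induction n with
  | zero =>
    intro l _ h
    simp [cnt, h]
  | succ n ih =>
    intro l hl h
    have key : ∀ a : ℕ, ∑ c : Fin n → Fin 3,
        (if ok ((l ++ [a]) ++ List.ofFn (fun i => (c i).val)) = true then 1 else 0) =
        cond (okNew l.length l a) (cnt n (l.length + 1) (l ++ [a])) 0 := by
      intro a
      rw [← ok_snoc l a (by omega) h]
      cases h2 : ok (l ++ [a])
      · rw [cond_false]
        refine Finset.sum_eq_zero (fun c _ => if_neg (fun hc => ?_))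
        rw [ok_prefix _ _ hc] at h2
        exact absurd h2 (by simp)
      · rw [cond_true, ih (l ++ [a]) (by simp; omega) h2]
        simp
    rw [cnt, ← key, ← key, ← key,
      ← (Fin.consEquiv (fun _ : Fin (n + 1) => Fin 3)).sum_comp, Fintype.sum_prod_type,
      Fin.sum_univ_three]
    simp only [Fin.consEquiv_apply, List.ofFn_succ, Fin.cons_zero, Fin.cons_succ,
      List.append_assoc, List.singleton_append]
    rfl

lemma cnt_val : cnt 21 0 [] = 54 := by decide +kernel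

lemma conf_aux : ∀ a : Dt,
    ((a.1.val, (sf a).1.val) ∈ conf ∨ ((sf a).1.val, a.1.val) ∈ conf) ∧
    ((a.1.val, (sf (sf a)).1.val) ∈ conf ∨ ((sf (sf a)).1.val, a.1.val) ∈ conf) := by
  decide +kernel

lemma conf_of_adj (a b : Dt) (h : b = a ∨ b = sf a ∨ b = sf (sf a)) (hne : a.1 ≠ b.1) :
    ((a.1.val, b.1.val) ∈ conf ∨ (b.1.val, a.1.val) ∈ conf) := by
  rcases h with rfl | rfl | rfl
  · exact absurd rfl hne
  · exact (conf_aux a).1
  · exact (conf_aux a).2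

lemma adj_of_conf : ∀ i j : Fin 21, (i.val, j.val) ∈ conf →
    i ≠ j ∧ ∃ x y : Bool, ((j, y) = sf (i, x) ∨ (j, y) = sf (sf (i, x))) := by
  decide +kernel

lemma getD_ofFn (c : Fin 21 → Fin 3) (i : Fin 21) :
    (List.ofFn (fun i => (c i).val)).getD i.val 0 = (c i).val := by
  rw [List.getD_eq_getElem _ _ (by simp)]
  simp only [List.getElem_ofFn]

lemma proper_iff (c : Fin 21 → Fin 3) :
    (∀ a b : Dt, sig.SameCycle a b → a.1 ≠ b.1 → c a.1 ≠ c b.1) ↔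
      ok ([] ++ List.ofFn (fun i => (c i).val)) = true := by
  simp only [List.nil_append, ok, List.all_eq_true, decide_eq_true_eq, List.length_ofFn]
  constructor
  · intro h p hp _
    obtain ⟨h1, h2⟩ := conf_lt p hp
    obtain ⟨h3, x, y, h4⟩ := adj_of_conf ⟨p.1, by omega⟩ ⟨p.2, h2⟩ hp
    have h5 := h (⟨p.1, by omega⟩, x) (⟨p.2, h2⟩, y) ((sameCycle_iff _ _).2 (Or.inr h4)) h3
    have e1 := getD_ofFn c ⟨p.1, by omega⟩
    have e2 := getD_ofFn c ⟨p.2, h2⟩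
    intro h6
    exact h5 (Fin.ext (e1.symm.trans (h6.trans e2)))
  · intro h a b hab hne hc
    have e1 := getD_ofFn c a.1
    have e2 := getD_ofFn c b.1
    have hv : (c a.1).val = (c b.1).val := congrArg Fin.val hc
    rcases conf_of_adj a b ((sameCycle_iff a b).1 hab) hne with hp | hp
    · exact h _ hp b.1.isLt (e1.trans (hv.trans e2.symm))
    · exact h _ hp a.1.isLt (e2.trans (hv.symm.trans e1.symm))

theorem colourings_val : colourings sig = 54 := by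
  classical
  unfold colourings
  have h0 := (sum_ok 21 [] rfl (by decide +kernel)).trans cnt_val
  rw [Nat.card_eq_fintype_card, Fintype.card_subtype, Finset.card_filter]
  refine Eq.trans ?_ h0
  refine Finset.sum_congr rfl (fun c _ => ?_)
  by_cases h : ∀ a b : Dt, sig.SameCycle a b → a.1 ≠ b.1 → c a.1 ≠ c b.1
  · rw [if_pos h, if_pos ((proper_iff c).1 h)]
  · rw [if_neg h, if_neg (fun h' => h ((proper_iff c).2 h'))]

end Pool.Agent.Lib.MP_daa8b9_co
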