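import Pool.Agent.Lib.MP_daa8b9_co.Defs

set_option autoImplicit false

namespace Pool.Agent.Lib.MP_daa8b9_co

variable {D : Type}

def merge (l : D → ℕ) (p : D × D) : D → ℕ := fun z => if l z = l p.2 then l p.1 else l z

def mergeL (l : D → ℕ) (L : List (D × D)) : D → ℕ := L.foldl merge l

def sgn : (D → ℕ) → List (D × D) → ℤ
  | _, [] => 1
  | l, p :: L => (if l p.1 = l p.2 then 1 else -1) * sgn (merge l p) L

lemma mergeL_cons (l : D → ℕ) (p : D × D) (L : List (D × D)) :
    mergeL l (p :: L) = mergeL (merge l p) L := rfl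

lemma mergeL_append (l : D → ℕ) (L M : List (D × D)) :
    mergeL l (L ++ M) = mergeL (mergeL l L) M := by
  simp [mergeL, List.foldl_append]

lemma sgn_append (L M : List (D × D)) : ∀ l : D → ℕ,
    sgn l (L ++ M) = sgn l L * sgn (mergeL l L) M := by
  induction L with
  | nil => intro l; simp [sgn, mergeL]
  | cons p L ih => intro l; simp only [List.cons_append, sgn, ih, mergeL_cons, mul_assoc]

lemma merge_eq_iff (l : D → ℕ) (p : D × D) (a b : D) :
    merge l p a = merge l p b ↔
      (l a = l b ∨ (l a = l p.1 ∧ l b = l p.2) ∨ (l a = l p.2 ∧ l b = l p.1)) := by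
  unfold merge
  split_ifs <;> omega

lemma mergeL_eq_iff (L : List (D × D)) : ∀ (l : D → ℕ) (a b : D),
    mergeL l L a = mergeL l L b ↔ Relation.EqvGen (fun a b => l a = l b ∨ (a, b) ∈ L) a b := by
  induction L with
  | nil =>
    intro l a b
    constructor
    · intro h
      exact Relation.EqvGen.rel _ _ (Or.inl h)
    · intro h
      induction h with
      | rel x y h => simpa [mergeL] using h
      | refl x => rfl
      | symm x y _ ih => exact ih.symm
      | trans x y z _ _ ih1 ih2 => exact ih1.trans ih2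
  | cons p L ih =>
    intro l a b
    rw [mergeL_cons, ih]
    have hp : Relation.EqvGen (fun a b => l a = l b ∨ (a, b) ∈ p :: L) p.1 p.2 :=
      Relation.EqvGen.rel _ _ (Or.inr (by simp))
    constructor
    · intro h
      induction h with
      | rel x y h =>
        rcases h with h | h
        · rcases (merge_eq_iff l p x y).1 h with h | ⟨h1, h2⟩ | ⟨h1, h2⟩
          · exact Relation.EqvGen.rel _ _ (Or.inl h)
          · exact Relation.EqvGen.trans _ _ _ (Relation.EqvGen.rel _ _ (Or.inl h1))
              (Relation.EqvGen.trans _ _ _ hp (Relation.EqvGen.rel _ _ (Or.inl h2.symm)))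
          · exact Relation.EqvGen.trans _ _ _ (Relation.EqvGen.rel _ _ (Or.inl h1))
              (Relation.EqvGen.trans _ _ _ (Relation.EqvGen.symm _ _ hp)
                (Relation.EqvGen.rel _ _ (Or.inl h2.symm)))
        · exact Relation.EqvGen.rel _ _ (Or.inr (List.mem_cons_of_mem _ h))
      | refl x => exact Relation.EqvGen.refl _
      | symm x y _ ih => exact Relation.EqvGen.symm _ _ ih
      | trans x y z _ _ ih1 ih2 => exact Relation.EqvGen.trans _ _ _ ih1 ih2
    · intro h
      induction h with
      | rel x y h =>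
        rcases h with h | h
        · exact Relation.EqvGen.rel _ _ (Or.inl ((merge_eq_iff l p x y).2 (Or.inl h)))
        · rcases List.mem_cons.1 h with h | h
          · refine Relation.EqvGen.rel _ _ (Or.inl ((merge_eq_iff l p x y).2 (Or.inr (Or.inl ?_))))
            rw [← h]
            exact ⟨rfl, rfl⟩
          · exact Relation.EqvGen.rel _ _ (Or.inr h)
      | refl x => exact Relation.EqvGen.refl _
      | symm x y _ ih => exact Relation.EqvGen.symm _ _ ih
      | trans x y z _ _ ih1 ih2 => exact Relation.EqvGen.trans _ _ _ ih1 ih2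

lemma classes_eq_card [Fintype D] (r : D → D → Prop) (f : D → ℕ)
    (h : ∀ a b, f a = f b ↔ Relation.EqvGen r a b) :
    classes r = (Finset.univ.image f).card := by
  unfold classes
  rw [← Nat.card_eq_finsetCard]
  refine Nat.card_congr (Equiv.ofBijective
    (Quot.lift (fun a => (⟨f a, Finset.mem_image_of_mem f (Finset.mem_univ a)⟩ :
      {x // x ∈ Finset.univ.image f}))
      (fun a b hab => Subtype.ext ((h a b).2 (Relation.EqvGen.rel _ _ hab)))) ⟨?_, ?_⟩)
  · intro x y
    induction x using Quot.ind
    induction y using Quot.ind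
    intro hxy
    exact Quot.eqvGen_sound ((h _ _).1 (congrArg Subtype.val hxy))
  · rintro ⟨x, hx⟩
    obtain ⟨a, -, rfl⟩ := Finset.mem_image.1 hx
    exact ⟨Quot.mk r a, rfl⟩

lemma classes_eq_mergeL [Fintype D] (r : D → D → Prop) (l : D → ℕ) (hl : Function.Injective l)
    (L : List (D × D)) (h1 : ∀ a b, r a b → (a, b) ∈ L ∨ (b, a) ∈ L)
    (h2 : ∀ a b, (a, b) ∈ L → r a b) :
    classes r = (Finset.univ.image (mergeL l L)).card := by
  apply classes_eq_card
  intro a b
  rw [mergeL_eq_iff]
  constructor
  · intro hh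
    induction hh with
    | rel x y hh =>
      rcases hh with hh | hh
      · rw [hl hh]; exact Relation.EqvGen.refl _
      · exact Relation.EqvGen.rel _ _ (h2 x y hh)
    | refl x => exact Relation.EqvGen.refl _
    | symm x y _ ih => exact Relation.EqvGen.symm _ _ ih
    | trans x y z _ _ ih1 ih2 => exact Relation.EqvGen.trans _ _ _ ih1 ih2
  · intro hh
    induction hh with
    | rel x y hh =>
      rcases h1 x y hh with h | h
      · exact Relation.EqvGen.rel _ _ (Or.inr h)
      · exact Relation.EqvGen.symm _ _ (Relation.EqvGen.rel _ _ (Or.inr h))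
    | refl x => exact Relation.EqvGen.refl _
    | symm x y _ ih => exact Relation.EqvGen.symm _ _ ih
    | trans x y z _ _ ih1 ih2 => exact Relation.EqvGen.trans _ _ _ ih1 ih2

lemma pow_card_merge [Fintype D] (l : D → ℕ) (p : D × D) :
    (-1 : ℤ) ^ (Finset.univ.image (merge l p)).card =
      (-1) ^ (Finset.univ.image l).card * (if l p.1 = l p.2 then 1 else -1) := by
  by_cases h : l p.1 = l p.2
  · have : merge l p = l := by
      funext z
      unfold merge
      split_ifs <;> omega
    rw [this, if_pos h, mul_one]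
  · have h1 : Finset.univ.image (merge l p) = (Finset.univ.image l).erase (l p.2) := by
      ext x
      simp only [Finset.mem_image, Finset.mem_univ, true_and, Finset.mem_erase]
      constructor
      · rintro ⟨z, rfl⟩
        unfold merge
        split_ifs with hz
        · exact ⟨h, p.1, rfl⟩
        · exact ⟨hz, z, rfl⟩
      · rintro ⟨hx, z, rfl⟩
        exact ⟨z, by unfold merge; rw [if_neg hx]⟩
    have h2 := Finset.card_erase_add_one
      (Finset.mem_image_of_mem l (Finset.mem_univ p.2))
    rw [h1, if_neg h, ← h2, pow_succ]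
    ring

lemma pow_card_mergeL [Fintype D] (L : List (D × D)) : ∀ l : D → ℕ,
    (-1 : ℤ) ^ (Finset.univ.image (mergeL l L)).card =
      (-1) ^ (Finset.univ.image l).card * sgn l L := by
  induction L with
  | nil => intro l; simp [mergeL, sgn]
  | cons p L ih => intro l; rw [mergeL_cons, ih, pow_card_merge, sgn, mul_assoc]

def T : List (List (D × D) × List (D × D)) → (D → ℕ) → ℤ
  | [], _ => 1
  | q :: es, l => sgn l q.1 * T es (mergeL l q.1) - sgn l q.2 * T es (mergeL l q.2)

lemma sum_states (n : ℕ) : ∀ (Lw Lc : Fin n → List (D × D)) (l : D → ℕ),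
    ∑ s : Fin n → Bool, (∏ i, (if s i = true then (-1 : ℤ) else 1)) *
      sgn l (List.ofFn (fun i => if s i = true then Lc i else Lw i)).flatten =
      T (List.ofFn (fun i => (Lw i, Lc i))) l := by
  induction n with
  | zero => intro Lw Lc l; simp [T, sgn]
  | succ n ih =>
    intro Lw Lc l
    rw [← (Fin.consEquiv (fun _ : Fin (n + 1) => Bool)).sum_comp, Fintype.sum_prod_type,
      Fintype.sum_bool, List.ofFn_succ, T, ← ih, ← ih, Finset.mul_sum, Finset.mul_sum,
      ← Finset.sum_sub_distrib, ← Finset.sum_add_distrib]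
    refine Finset.sum_congr rfl (fun s _ => ?_)
    simp only [Fin.consEquiv_apply, Fin.prod_univ_succ, List.ofFn_succ, Fin.cons_zero,
      Fin.cons_succ, List.flatten_cons, sgn_append, if_true, Bool.false_eq_true, if_false]
    ring

def SameKer (A : D → Prop) (l l' : D → ℕ) : Prop :=
  ∀ a b, A a → A b → (l a = l b ↔ l' a = l' b)

lemma SameKer.merge {A : D → Prop} {l l' : D → ℕ} (h : SameKer A l l') (p : D × D)
    (h1 : A p.1) (h2 : A p.2) : SameKer A (merge l p) (merge l' p) := by
  intro a b ha hb
  rw [merge_eq_iff, merge_eq_iff, h a b ha hb, h a p.1 ha h1, h b p.2 hb h2, h a p.2 ha h2,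
    h b p.1 hb h1]

lemma SameKer.mergeL {A : D → Prop} (L : List (D × D)) : ∀ {l l' : D → ℕ}, SameKer A l l' →
    (∀ p ∈ L, A p.1 ∧ A p.2) → SameKer A (mergeL l L) (mergeL l' L) ∧ sgn l L = sgn l' L := by
  induction L with
  | nil => intro l l' h _; exact ⟨h, rfl⟩
  | cons p L ih =>
    intro l l' h hL
    obtain ⟨h1, h2⟩ := hL p (by simp)
    obtain ⟨h3, h4⟩ := ih (h.merge p h1 h2) (fun q hq => hL q (List.mem_cons_of_mem _ hq))
    refine ⟨h3, ?_⟩
    rw [sgn, sgn, h4]
    simp only [h p.1 p.2 h1 h2]

lemma T_congr {A : D → Prop} (es : List (List (D × D) × List (D × D))) :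
    ∀ {l l' : D → ℕ}, SameKer A l l' →
    (∀ q ∈ es, (∀ p ∈ q.1, A p.1 ∧ A p.2) ∧ (∀ p ∈ q.2, A p.1 ∧ A p.2)) → T es l = T es l' := by
  induction es with
  | nil => intro l l' _ _; rfl
  | cons q es ih =>
    intro l l' h hes
    obtain ⟨h1, h2⟩ := hes q (by simp)
    obtain ⟨h3, h4⟩ := SameKer.mergeL q.1 h h1
    obtain ⟨h5, h6⟩ := SameKer.mergeL q.2 h h2
    have hes' := fun q' hq' => hes q' (List.mem_cons_of_mem _ hq')
    rw [T, T, h4, h6, ih h3 hes', ih h5 hes']

end Pool.Agent.Lib.MP_daa8b9_co
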